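import Pool.Agent.Q9.MonoChain

/-!
# Gap-free graphs whose `3`-connected ideal has no linear quotients

Let `G` be the complement of the icosahedron graph (12 vertices).  It is gap-free, and over every
field the ideal `conn_3(G)` does not have linear quotients.
-/

namespace Pool.Agent.Results.MP_c1f45e_al.Icosahedron

open MvPolynomial Q9.MonoChain

universe u

/-- `G` is gap-free: of any two disjoint edges, some endpoint of one is adjacent to some endpoint
of the other. -/
def GapFree {V : Type} (G : SimpleGraph V) : Prop :=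
  ∀ a b c d : V, G.Adj a b → G.Adj c d → a ≠ c → a ≠ d → b ≠ c → b ≠ d →
    G.Adj a c ∨ G.Adj a d ∨ G.Adj b c ∨ G.Adj b d

/-- The `t`-connected ideal: generated by the products `x_S`, `S` a set of `t` vertices whose
induced subgraph is connected. -/
noncomputable def conn (K : Type u) [Field K] {V : Type} (G : SimpleGraph V) (t : ℕ) :
    Ideal (MvPolynomial V K) :=
  Ideal.span {f | ∃ S : Finset V, S.card = t ∧ (G.induce (S : Set V)).Connected ∧
    f = ∏ v ∈ S, X v}

/-- Exponents of the minimal monomial generators of a monomial ideal `I`: the monomials lying in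
`I` no proper divisor of which lies in `I`. -/
def minGens {K : Type u} [Field K] {V : Type} (I : Ideal (MvPolynomial V K)) : Set (V →₀ ℕ) :=
  {e | monomial e (1 : K) ∈ I ∧ ∀ e' : V →₀ ℕ, e' ≤ e → monomial e' (1 : K) ∈ I → e' = e}

/-- Linear quotients: the minimal monomial generators can be ordered `m_0, m_1, ..., m_(r-1)` so
that each colon ideal `(m_j : j < i) : m_i` is generated by a set of variables. -/
def HasLinearQuotients {K : Type u} [Field K] {V : Type} (I : Ideal (MvPolynomial V K)) : Prop :=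
  ∃ (r : ℕ) (m : Fin r → (V →₀ ℕ)), Function.Injective m ∧ Set.range m = minGens I ∧
    ∀ i : Fin r, ∃ B : Set V, ∀ f : MvPolynomial V K,
      f * monomial (m i) (1 : K) ∈
          Ideal.span ((fun j => monomial (m j) (1 : K)) '' {j : Fin r | j < i}) ↔
        f ∈ Ideal.span (X '' B)

/-! ### Monomials of sets -/

/-- the exponent vector of `x_S` -/
noncomputable def ind {V : Type} (S : Finset V) : V →₀ ℕ := ∑ v ∈ S, Finsupp.single v 1

theorem prod_X {K : Type u} [Field K] {V : Type} (S : Finset V) :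
    (∏ v ∈ S, X v : MvPolynomial V K) = monomial (ind S) 1 := by
  unfold ind
  rw [monomial_sum_one]
  rfl

theorem ind_apply {V : Type} [DecidableEq V] (S : Finset V) (v : V) :
    ind S v = if v ∈ S then 1 else 0 := by
  unfold ind
  rw [Finsupp.finsetSum_apply]
  simp_rw [Finsupp.single_apply]
  rw [Finset.sum_ite_eq' S v]

theorem ind_le_iff {V : Type} [DecidableEq V] (S : Finset V) (e : V →₀ ℕ) :
    ind S ≤ e ↔ ∀ v ∈ S, e v ≠ 0 := by
  constructor
  · intro h v hv
    have := h v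
    rw [ind_apply, if_pos hv] at this
    omega
  · intro h v
    rw [ind_apply]
    split_ifs with hv
    · have := h v hv
      omega
    · exact Nat.zero_le _

theorem ind_le_ind {V : Type} [DecidableEq V] (S T : Finset V) : ind S ≤ ind T ↔ S ⊆ T := by
  rw [ind_le_iff]
  constructor
  · intro h v hv
    by_contra hc
    have := h v hv
    rw [ind_apply, if_neg hc] at this
    exact this rfl
  · intro h v hv
    rw [ind_apply, if_pos (h hv)]
    exact one_ne_zero

theorem ind_injective {V : Type} [DecidableEq V] {S T : Finset V} (h : ind S = ind T) : S = T := by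
  apply Finset.Subset.antisymm
  · rw [← ind_le_ind, h]
  · rw [← ind_le_ind, h]

theorem mem_span_iff {K : Type u} [Field K] {V : Type} (A : Set (V →₀ ℕ)) (e : V →₀ ℕ) :
    monomial e (1 : K) ∈ Ideal.span ((fun s => monomial s (1 : K)) '' A) ↔ ∃ s ∈ A, s ≤ e := by
  classical
  rw [mem_ideal_span_monomial_image, support_monomial, if_neg one_ne_zero]
  simp

theorem mem_span_X_iff {K : Type u} [Field K] {V : Type} (B : Set V) (e : V →₀ ℕ) :
    monomial e (1 : K) ∈ Ideal.span (X '' B) ↔ ∃ v ∈ B, e v ≠ 0 := by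
  classical
  rw [mem_ideal_span_X_image, support_monomial, if_neg one_ne_zero]
  simp

theorem conn_eq (K : Type u) [Field K] {V : Type} (G : SimpleGraph V) (t : ℕ) :
    conn K G t = Ideal.span ((fun s => monomial s (1 : K)) ''
      {e | ∃ S : Finset V, S.card = t ∧ (G.induce (S : Set V)).Connected ∧ e = ind S}) := by
  unfold conn
  congr 1
  ext f
  constructor
  · rintro ⟨S, h1, h2, rfl⟩
    exact ⟨ind S, ⟨S, h1, h2, rfl⟩, (prod_X S).symm⟩
  · rintro ⟨_, ⟨S, h1, h2, rfl⟩, rfl⟩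
    exact ⟨S, h1, h2, (prod_X S).symm⟩

theorem minGens_conn (K : Type u) [Field K] {V : Type} (G : SimpleGraph V) (t : ℕ) :
    minGens (conn K G t) =
      {e | ∃ S : Finset V, S.card = t ∧ (G.induce (S : Set V)).Connected ∧ e = ind S} := by
  classical
  ext e
  unfold minGens
  rw [conn_eq]
  simp only [Set.mem_ofPred_eq, mem_span_iff]
  constructor
  · rintro ⟨⟨_, ⟨S, h1, h2, rfl⟩, hle⟩, hmin⟩
    exact ⟨S, h1, h2, (hmin (ind S) hle ⟨ind S, ⟨S, h1, h2, rfl⟩, le_rfl⟩).symm⟩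
  · rintro ⟨S, h1, h2, rfl⟩
    refine ⟨⟨ind S, ⟨S, h1, h2, rfl⟩, le_rfl⟩, ?_⟩
    rintro e' hle ⟨_, ⟨S', h1', h2', rfl⟩, hle'⟩
    have h3 : S' ⊆ S := (ind_le_ind _ _).1 (hle'.trans hle)
    have h4 : S' = S := Finset.eq_of_subset_of_card_le h3 (by rw [h1, h1'])
    rw [h4] at hle'
    exact le_antisymm hle hle'

/-- The consequence of linear quotients used below, in terms of sets. -/
theorem lq_sets (K : Type u) [Field K] {V : Type} [DecidableEq V] (G : SimpleGraph V) (t : ℕ)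
    (h : HasLinearQuotients (conn K G t)) : ∃ (r : ℕ) (M : Fin r → Finset V),
      (∀ i, (M i).card = t) ∧ (∀ i, (G.induce (M i : Set V)).Connected) ∧
      (∀ S : Finset V, S.card = t → (G.induce (S : Set V)).Connected → ∃ i, M i = S) ∧
      (∀ i j, j < i → ∃ l, l < i ∧ ∃ y ∈ M j, y ∉ M i ∧ M l ⊆ insert y (M i)) := by
  obtain ⟨r, m, hinj, hrange, hcol⟩ := h
  rw [minGens_conn] at hrange
  have hm : ∀ i, ∃ S : Finset V, S.card = t ∧ (G.induce (S : Set V)).Connected ∧ m i = ind S := by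
    intro i
    have : m i ∈ Set.range m := ⟨i, rfl⟩
    rw [hrange] at this
    exact this
  choose M hM1 hM2 hM3 using hm
  refine ⟨r, M, hM1, hM2, ?_, ?_⟩
  · intro S hS1 hS2
    have : ind S ∈ Set.range m := by
      rw [hrange]
      exact ⟨S, hS1, hS2, rfl⟩
    obtain ⟨i, hi⟩ := this
    refine ⟨i, ?_⟩
    rw [hM3] at hi
    exact ind_injective hi
  · intro i j hji
    obtain ⟨B, hB⟩ := hcol i
    have himg : ((fun j => monomial (m j) (1 : K)) '' {j : Fin r | j < i}) =
        ((fun s => monomial s (1 : K)) '' (m '' {j : Fin r | j < i})) := by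
      rw [Set.image_image]
    simp only [himg] at hB
    have h1 := hB (monomial (ind (M j \ M i)) 1)
    rw [monomial_mul, mul_one, mem_span_iff, mem_span_X_iff] at h1
    have h2 : ∃ s ∈ m '' {j : Fin r | j < i}, s ≤ ind (M j \ M i) + m i := by
      refine ⟨m j, ⟨j, hji, rfl⟩, ?_⟩
      rw [hM3 j, hM3 i, ind_le_iff]
      intro v hv
      rw [Finsupp.add_apply, ind_apply, ind_apply]
      by_cases hvi : v ∈ M i
      · rw [if_pos hvi]; omega
      · rw [if_pos (Finset.mem_sdiff.2 ⟨hv, hvi⟩)]; omega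
    obtain ⟨y, hyB, hy⟩ := h1.1 h2
    rw [ind_apply] at hy
    have hy' : y ∈ M j \ M i := by
      by_contra hc
      rw [if_neg hc] at hy
      exact hy rfl
    rw [Finset.mem_sdiff] at hy'
    have h3 := hB (monomial (ind {y}) 1)
    rw [monomial_mul, mul_one, mem_span_iff, mem_span_X_iff] at h3
    obtain ⟨s, ⟨l, hl, rfl⟩, hle⟩ := h3.2 ⟨y, hyB, by rw [ind_apply]; simp⟩
    refine ⟨l, hl, y, hy'.1, hy'.2, ?_⟩
    rw [hM3 l, hM3 i, ind_le_iff] at hle
    intro v hv
    have h4 := hle v hv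
    rw [Finsupp.add_apply, ind_apply, ind_apply] at h4
    by_contra hc
    rw [Finset.mem_insert, not_or] at hc
    rw [if_neg (by rw [Finset.mem_singleton]; exact hc.1), if_neg hc.2] at h4
    exact h4 rfl

/-! ### The icosahedron -/

/-- adjacency of the icosahedron graph: `0` is joined to `1, ..., 5`, `11` to `6, ..., 10`,
`1 2 3 4 5` and `6 7 8 9 10` are cycles, and `i` is joined to `i + 5` and `i + 6` (cyclically) for
`i = 1, ..., 5`. -/
def row (i : ℕ) : ℕ :=
  match i with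
  | 0 => 2 ^ 1 + 2 ^ 2 + 2 ^ 3 + 2 ^ 4 + 2 ^ 5
  | 1 => 2 ^ 0 + 2 ^ 2 + 2 ^ 5 + 2 ^ 6 + 2 ^ 7
  | 2 => 2 ^ 0 + 2 ^ 1 + 2 ^ 3 + 2 ^ 7 + 2 ^ 8
  | 3 => 2 ^ 0 + 2 ^ 2 + 2 ^ 4 + 2 ^ 8 + 2 ^ 9
  | 4 => 2 ^ 0 + 2 ^ 3 + 2 ^ 5 + 2 ^ 9 + 2 ^ 10
  | 5 => 2 ^ 0 + 2 ^ 4 + 2 ^ 1 + 2 ^ 10 + 2 ^ 6
  | 6 => 2 ^ 11 + 2 ^ 7 + 2 ^ 10 + 2 ^ 1 + 2 ^ 5
  | 7 => 2 ^ 11 + 2 ^ 6 + 2 ^ 8 + 2 ^ 1 + 2 ^ 2
  | 8 => 2 ^ 11 + 2 ^ 7 + 2 ^ 9 + 2 ^ 2 + 2 ^ 3
  | 9 => 2 ^ 11 + 2 ^ 8 + 2 ^ 10 + 2 ^ 3 + 2 ^ 4
  | 10 => 2 ^ 11 + 2 ^ 9 + 2 ^ 6 + 2 ^ 4 + 2 ^ 5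
  | 11 => 2 ^ 6 + 2 ^ 7 + 2 ^ 8 + 2 ^ 9 + 2 ^ 10
  | _ => 0

/-- adjacency in the icosahedron graph -/
def ico (a b : Fin 12) : Bool := Nat.testBit (row a.1) b.1

theorem ico_symm : ∀ a b : Fin 12, ico a b = ico b a := by decide

theorem ico_irrefl : ∀ a : Fin 12, ico a a = false := by decide

/-- the complement of the icosahedron graph -/
def G : SimpleGraph (Fin 12) where
  Adj a b := a ≠ b ∧ ico a b = false
  symm := ⟨fun a b h => ⟨h.1.symm, by rw [ico_symm]; exact h.2⟩⟩
  loopless := ⟨fun a h => h.1 rfl⟩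

instance : DecidableRel G.Adj := fun a b => by
  unfold G
  infer_instance

theorem gapFree_G : GapFree G := by
  unfold GapFree
  decide

theorem connected_of_path {V : Type} {G : SimpleGraph V} {a b c : V} [DecidableEq V]
    (h1 : G.Adj a b) (h2 : G.Adj b c) :
    (G.induce (({a, b, c} : Finset V) : Set V)).Connected := by
  have ha : a ∈ (({a, b, c} : Finset V) : Set V) := by simp
  have hb : b ∈ (({a, b, c} : Finset V) : Set V) := by simp
  have hc : c ∈ (({a, b, c} : Finset V) : Set V) := by simp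
  rw [SimpleGraph.connected_iff_exists_forall_reachable]
  refine ⟨⟨b, hb⟩, ?_⟩
  rintro ⟨v, hv⟩
  have hv' : v = a ∨ v = b ∨ v = c := by simpa using hv
  rcases hv' with rfl | rfl | rfl
  · apply SimpleGraph.Adj.reachable
    exact h1.symm
  · exact SimpleGraph.Reachable.refl _
  · apply SimpleGraph.Adj.reachable
    exact h2

/-- indicator of the triangles of the icosahedron -/
def z (T : Finset (Fin 12)) : ZMod 2 :=
  if T.card = 3 ∧ ∀ a ∈ T, ∀ b ∈ T, a ≠ b → ico a b = true then 1 else 0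

theorem z_triple {a b c : Fin 12} (hab : a ≠ b) (hac : a ≠ c) (hbc : b ≠ c) :
    z {a, b, c} = if ico a b && ico a c && ico b c then 1 else 0 := by
  unfold z
  congr 1
  rw [eq_iff_iff, Bool.and_eq_true, Bool.and_eq_true]
  constructor
  · rintro ⟨_, h⟩
    exact ⟨⟨h a (by simp) b (by simp) hab, h a (by simp) c (by simp) hac⟩,
      h b (by simp) c (by simp) hbc⟩
  · rintro ⟨⟨h1, h2⟩, h3⟩
    refine ⟨Finset.card_eq_three.2 ⟨a, b, c, hab, hac, hbc, rfl⟩, ?_⟩
    intro x hx y hy hxy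
    simp only [Finset.mem_insert, Finset.mem_singleton] at hx hy
    rcases hx with rfl | rfl | rfl <;> rcases hy with rfl | rfl | rfl <;>
      first
      | exact absurd rfl hxy
      | assumption
      | (rw [ico_symm]; assumption)

theorem z_cycle_num : ∀ a b : Fin 12, a ≠ b →
    ∑ v ∈ ({a, b} : Finset (Fin 12))ᶜ, (if ico v a && ico v b && ico a b then (1 : ZMod 2) else 0)
      = 0 := by
  decide

theorem z_cycle : ∀ a b : Fin 12, a ≠ b →
    ∑ v ∈ ({a, b} : Finset (Fin 12))ᶜ, z (insert v {a, b}) = 0 := by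
  intro a b hab
  rw [← z_cycle_num a b hab]
  apply Finset.sum_congr rfl
  intro v hv
  rw [Finset.mem_compl, Finset.mem_insert, Finset.mem_singleton, not_or] at hv
  exact z_triple hv.1 hv.2 hab

theorem z_card : ∀ T : Finset (Fin 12), T.card ≠ 3 → z T = 0 := by
  intro T hT
  unfold z
  rw [if_neg]
  exact fun h => hT h.1

theorem z_of_connected {S : Finset (Fin 12)} (hS : S.card = 3)
    (h : (G.induce (S : Set (Fin 12))).Connected) : z S = 0 := by
  unfold z
  rw [if_neg]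
  rintro ⟨_, h2⟩
  obtain ⟨a, b, c, hab, hac, hbc, rfl⟩ := Finset.card_eq_three.1 hS
  have ha : a ∈ (({a, b, c} : Finset (Fin 12)) : Set (Fin 12)) := by simp
  have hb : b ∈ (({a, b, c} : Finset (Fin 12)) : Set (Fin 12)) := by simp
  obtain ⟨w⟩ := h.preconnected ⟨a, ha⟩ ⟨b, hb⟩
  cases w with
  | nil => exact hab rfl
  | @cons _ x _ hx _ =>
    have h3 : G.Adj a x.1 := hx
    have h4 := h2 a (by simp) x.1 (by exact_mod_cast x.2) h3.1
    have h5 := h3.2
    rw [h4] at h5
    exact Bool.noConfusion h5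

theorem exists_path (F : Finset (Fin 12)) (P : Finset (Finset (Fin 12)))
    (w : Finset (Fin 12) → ZMod 2) (hw : Fill z P w)
    (hP : ∀ a b c : Fin 12, a ≠ c → G.Adj a b → G.Adj b c → ({a, b, c} : Finset (Fin 12)) ∈ P)
    (h : ∃ a ∈ F, ∃ b ∈ F, ∃ c ∈ F, a ≠ c ∧ G.Adj a b ∧ G.Adj b c) : w F = 0 := by
  obtain ⟨a, ha, b, hb, c, hc, hac, h1, h2⟩ := h
  apply hw.avoid F _ (hP a b c hac h1 h2)
  intro x hx
  simp only [Finset.mem_insert, Finset.mem_singleton] at hx
  rcases hx with rfl | rfl | rfl <;> assumption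

theorem four_012 : ∀ v : Fin 12, v ∉ ({0, 1, 2} : Finset (Fin 12)) → v ≠ 3 → v ≠ 5 → v ≠ 7 →
    ∃ a ∈ insert v ({0, 1, 2} : Finset (Fin 12)), ∃ b ∈ insert v ({0, 1, 2} : Finset (Fin 12)),
    ∃ c ∈ insert v ({0, 1, 2} : Finset (Fin 12)), a ≠ c ∧ G.Adj a b ∧ G.Adj b c := by
  decide

theorem four_013 : ∀ v : Fin 12, v ∉ ({0, 1, 3} : Finset (Fin 12)) → v ≠ 2 →
    ∃ a ∈ insert v ({0, 1, 3} : Finset (Fin 12)), ∃ b ∈ insert v ({0, 1, 3} : Finset (Fin 12)),
    ∃ c ∈ insert v ({0, 1, 3} : Finset (Fin 12)), a ≠ c ∧ G.Adj a b ∧ G.Adj b c := by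
  decide

theorem four_025 : ∀ v : Fin 12, v ∉ ({0, 2, 5} : Finset (Fin 12)) → v ≠ 1 →
    ∃ a ∈ insert v ({0, 2, 5} : Finset (Fin 12)), ∃ b ∈ insert v ({0, 2, 5} : Finset (Fin 12)),
    ∃ c ∈ insert v ({0, 2, 5} : Finset (Fin 12)), a ≠ c ∧ G.Adj a b ∧ G.Adj b c := by
  decide

theorem four_017 : ∀ v : Fin 12, v ∉ ({0, 1, 7} : Finset (Fin 12)) → v ≠ 2 →
    ∃ a ∈ insert v ({0, 1, 7} : Finset (Fin 12)), ∃ b ∈ insert v ({0, 1, 7} : Finset (Fin 12)),
    ∃ c ∈ insert v ({0, 1, 7} : Finset (Fin 12)), a ≠ c ∧ G.Adj a b ∧ G.Adj b c := by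
  decide

theorem no_fill (P : Finset (Finset (Fin 12)))
    (w : Finset (Fin 12) → ZMod 2) (hw : Fill z P w)
    (hP : ∀ a b c : Fin 12, a ≠ c → G.Adj a b → G.Adj b c → ({a, b, c} : Finset (Fin 12)) ∈ P) :
    False := by
  have e1 : bd w {0, 1, 3} = w {0, 1, 2, 3} := by
    unfold bd
    rw [Finset.sum_eq_single 2]
    · congr 1
      decide
    · intro v hv hne
      rw [Finset.mem_compl] at hv
      exact exists_path _ P w hw hP (four_013 v hv hne)
    · intro h; exact absurd (by decide) h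
  have e2 : bd w {0, 2, 5} = w {0, 1, 2, 5} := by
    unfold bd
    rw [Finset.sum_eq_single 1]
    · congr 1
      decide
    · intro v hv hne
      rw [Finset.mem_compl] at hv
      exact exists_path _ P w hw hP (four_025 v hv hne)
    · intro h; exact absurd (by decide) h
  have e3 : bd w {0, 1, 7} = w {0, 1, 2, 7} := by
    unfold bd
    rw [Finset.sum_eq_single 2]
    · congr 1
      decide
    · intro v hv hne
      rw [Finset.mem_compl] at hv
      exact exists_path _ P w hw hP (four_017 v hv hne)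
    · intro h; exact absurd (by decide) h
  have e4 : bd w {0, 1, 2} = w {0, 1, 2, 3} + w {0, 1, 2, 5} + w {0, 1, 2, 7} := by
    unfold bd
    have h1 : ∑ v ∈ ({0, 1, 2} : Finset (Fin 12))ᶜ, w (insert v {0, 1, 2})
        = ∑ v ∈ ({3, 5, 7} : Finset (Fin 12)), w (insert v {0, 1, 2}) := by
      symm
      apply Finset.sum_subset (by decide)
      intro v hv hv'
      rw [Finset.mem_compl] at hv
      simp only [Finset.mem_insert, Finset.mem_singleton, not_or] at hv'
      exact exists_path _ P w hw hP (four_012 v hv hv'.1 hv'.2.1 hv'.2.2)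
    have k3 : (insert 3 {0, 1, 2} : Finset (Fin 12)) = {0, 1, 2, 3} := by decide
    have k5 : (insert 5 {0, 1, 2} : Finset (Fin 12)) = {0, 1, 2, 5} := by decide
    have k7 : (insert 7 {0, 1, 2} : Finset (Fin 12)) = {0, 1, 2, 7} := by decide
    rw [h1, Finset.sum_insert (by decide), Finset.sum_insert (by decide), Finset.sum_singleton,
      ← add_assoc, k3, k5, k7]
  rw [hw.bdry _ (by decide)] at e1 e2 e3 e4
  rw [← e1, ← e2, ← e3] at e4
  revert e4
  rw [z_triple (by decide) (by decide) (by decide), z_triple (by decide) (by decide) (by decide),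
    z_triple (by decide) (by decide) (by decide), z_triple (by decide) (by decide) (by decide)]
  decide

/-- Over every field the ideal `conn_3(G)`, `G` the complement of the icosahedron graph, has no
linear quotients, although `G` is gap-free. -/
theorem result : ∃ G : SimpleGraph (Fin 12), GapFree G ∧
    ∀ (K : Type u) [Field K], ¬ HasLinearQuotients (conn K G 3) := by
  refine ⟨G, gapFree_G, ?_⟩
  intro K _ h
  obtain ⟨r, M, hcard, hconn, hall, hLQ⟩ := lq_sets K G 3 h
  obtain ⟨w, hw⟩ := fill_all (cone z_card z_cycle 0) M hcard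
    (fun i => z_of_connected (hcard i) (hconn i)) hLQ
  refine no_fill _ w hw ?_
  intro a b c hac h1 h2
  rw [Finset.mem_image]
  obtain ⟨i, hi⟩ := hall {a, b, c}
    (Finset.card_eq_three.2 ⟨a, b, c, h1.1, hac, h2.1, rfl⟩) (connected_of_path h1 h2)
  exact ⟨i, Finset.mem_univ _, hi⟩

end Pool.Agent.Results.MP_c1f45e_al.Icosahedron
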